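import Pool.Agent.H128R3.JD.DelK
import Pool.Agent.H471R3.GJ.Cusp

set_option autoImplicit false

/-!
# The discriminant is a Hecke series
-/

namespace Pool.Agent.H128R3.JD.DelHk

open Complex Filter Topology MeasureTheory UpperHalfPlane
open Pool.Agent.H128R3.JD.DelK
open Pool.Agent.H471R3.GJ
open scoped MatrixGroups

/-- The data attached to the discriminant. -/
noncomputable def hk (B : ℝ) : Hk where
  φ := Dl
  b m := ((qExpansion 1 (CuspForm.discriminant : ℍ → ℂ)).coeff m).re
  k := 12
  h := 1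
  p := 1
  β := 6
  B := B
  ε := 1

lemma Dl_re {y : ℝ} (hy : 0 < y) :
    (CuspForm.discriminant (ofComplex (Complex.I * y))).re = Dl y := by
  have h := Dl_eq hy
  have h2 : CuspForm.discriminant (ofComplex (Complex.I * y)) =
      ModularForm.discriminant (ofComplex (Complex.I * y)) := rfl
  rw [h2, ← h, Complex.ofReal_re]

theorem isHk : ∃ B : ℝ, IsHk (hk B) := by
  obtain ⟨B, hB1, hB⟩ := CuspAux.coeff_bound 12 CuspForm.discriminant
  refine ⟨B, by show (0 : ℝ) < 12; norm_num, by show (0 : ℝ) < 1; norm_num, le_refl 1,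
    by show (0 : ℝ) ≤ 6; norm_num, hB1, ?_, ?_, ?_, Or.inl rfl, ?_⟩
  · have h1 := congrArg Complex.re ModularForm.discriminant_qExpansion_coeff_one
    exact h1.trans Complex.one_re
  · intro m hm
    refine (Complex.abs_re_le_norm _).trans ((hB m hm).trans (le_of_eq ?_))
    show B * (m : ℝ) ^ (((12 : ℤ) : ℝ) / 2) = B * (m : ℝ) ^ (6 : ℝ)
    norm_num
  · intro y hy
    have h := Complex.hasSum_re (CuspAux.sum_iy CuspForm.discriminant y hy)
    have h2 := (hasSum_nat_add_iff' 1).2 h
    simp only [Finset.range_one, Finset.sum_singleton, CuspAux.coeff_zero, zero_mul, Complex.zero_re,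
      sub_zero] at h2
    rw [Dl_re hy] at h2
    refine h2.congr_fun ?_
    intro m
    rw [Complex.re_mul_ofReal]
    show ((qExpansion 1 (CuspForm.discriminant : ℍ → ℂ)).coeff (m + 1)).re *
      Real.exp (-(2 * Real.pi * ((m + 1 : ℕ) : ℝ) ^ 1 * y / 1)) = _
    rw [pow_one, div_one]
  · intro y hy
    show Dl (1 / y) = 1 * y ^ (12 : ℝ) * Dl y
    rw [one_div, Dl_inv hy, one_mul]
    congr 1
    norm_cast

end Pool.Agent.H128R3.JD.DelHk
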