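import Pool.Agent.H128R3.JD.Spec

set_option autoImplicit false

/-!
# The function `y ↦ Δ(i y)`
-/

namespace Pool.Agent.H128R3.JD.DelK

open Complex Filter Topology MeasureTheory
open UpperHalfPlane (ofComplex)
open scoped MatrixGroups

/-- `Δ(i y)` as a real function. -/
noncomputable def Dl (y : ℝ) : ℝ :=
  Real.exp (-2 * Real.pi * y) * ∏' n : ℕ, (1 - Real.exp (-2 * Real.pi * ((n : ℝ) + 1) * y)) ^ 24

lemma fac_eq (y : ℝ) (n : ℕ) : Real.exp (-2 * Real.pi * ((n : ℝ) + 1) * y) =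
    Real.exp (-2 * Real.pi * y) ^ (n + 1) := by
  rw [← Real.exp_nat_mul]
  congr 1
  push_cast
  ring

lemma q_lt {y : ℝ} (hy : 0 < y) : Real.exp (-2 * Real.pi * y) < 1 := by
  rw [Real.exp_lt_one_iff]
  have := mul_pos Real.pi_pos hy
  linarith

lemma fac_pos {y : ℝ} (hy : 0 < y) (n : ℕ) :
    0 ≤ 1 - Real.exp (-2 * Real.pi * ((n : ℝ) + 1) * y) ∧
      1 - Real.exp (-2 * Real.pi * ((n : ℝ) + 1) * y) ≤ 1 := by
  rw [fac_eq]
  have h1 := q_lt hy
  have h0 := (Real.exp_pos (-2 * Real.pi * y)).le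
  have h2 : Real.exp (-2 * Real.pi * y) ^ (n + 1) ≤ 1 := pow_le_one₀ h0 h1.le
  have h3 : 0 ≤ Real.exp (-2 * Real.pi * y) ^ (n + 1) := by positivity
  constructor <;> linarith

lemma mult {y : ℝ} (hy : 0 < y) :
    Multipliable fun n : ℕ => (1 - Real.exp (-2 * Real.pi * ((n : ℝ) + 1) * y)) ^ 24 := by
  have h : Multipliable fun n : ℕ => 1 - Real.exp (-2 * Real.pi * y) ^ (n + 1) := by
    apply multipliable_one_add_of_summable (f := fun n : ℕ => -Real.exp (-2 * Real.pi * y) ^ (n + 1))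
    have h1 := (summable_nat_add_iff 1).mpr
      (summable_geometric_of_lt_one (Real.exp_pos (-2 * Real.pi * y)).le (q_lt hy))
    simpa using h1
  have h2 := h.pow 24
  refine h2.congr fun n => ?_
  rw [fac_eq]

lemma prod_mem {y : ℝ} (hy : 0 < y) :
    0 ≤ ∏' n : ℕ, (1 - Real.exp (-2 * Real.pi * ((n : ℝ) + 1) * y)) ^ 24 ∧
      ∏' n : ℕ, (1 - Real.exp (-2 * Real.pi * ((n : ℝ) + 1) * y)) ^ 24 ≤ 1 := by
  have h := (mult hy).hasProd
  constructor
  · exact ge_of_tendsto' h fun s => Finset.prod_nonneg fun n _ => pow_nonneg (fac_pos hy n).1 _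
  · exact le_of_tendsto' h fun s => Finset.prod_le_one
      (fun n _ => pow_nonneg (fac_pos hy n).1 _)
      (fun n _ => pow_le_one₀ (fac_pos hy n).1 (fac_pos hy n).2)

lemma Dl_eq {y : ℝ} (hy : 0 < y) : ((Dl y : ℝ) : ℂ) = ModularForm.discriminant (ofComplex (I * y)) := by
  have him : 0 < (I * (y : ℂ)).im := by simpa using hy
  rw [ModularForm.discriminant_eq_q_prod, UpperHalfPlane.ofComplex_apply_of_im_pos him]
  unfold Dl
  have h := ((mult hy).hasProd.map Complex.ofRealHom Complex.continuous_ofReal).tprod_eq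
  rw [Complex.ofReal_mul]
  congr 1
  · rw [Function.Periodic.qParam, Complex.ofReal_exp]
    congr 1
    push_cast
    ring_nf
    rw [I_sq]
    ring
  · have e : (Complex.ofRealHom (∏' n : ℕ, (1 - Real.exp (-2 * Real.pi * ((n : ℝ) + 1) * y)) ^ 24) : ℂ) =
        ((∏' n : ℕ, (1 - Real.exp (-2 * Real.pi * ((n : ℝ) + 1) * y)) ^ 24 : ℝ) : ℂ) := rfl
    rw [← e, ← h]
    refine tprod_congr fun n => ?_
    simp only [Function.comp_apply, Complex.ofRealHom_eq_coe]
    rw [ModularForm.eta_q_eq_cexp]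
    push_cast
    congr 3
    ring_nf
    rw [I_sq]
    ring

lemma Dl_pos {y : ℝ} (hy : 0 < y) : 0 < Dl y := by
  have h0 : 0 ≤ Dl y := mul_nonneg (Real.exp_pos _).le (prod_mem hy).1
  refine lt_of_le_of_ne h0 fun h => ?_
  have h1 := Dl_eq hy
  rw [← h] at h1
  exact ModularForm.discriminant_ne_zero _ (by simpa using h1.symm)

lemma Dl_le {y : ℝ} (hy : 0 < y) : Dl y ≤ Real.exp (-2 * Real.pi * y) := by
  unfold Dl
  exact mul_le_of_le_one_right (Real.exp_pos _).le (prod_mem hy).2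

lemma Dl_inv {y : ℝ} (hy : 0 < y) : Dl y⁻¹ = y ^ 12 * Dl y := by
  have hy' : 0 < y⁻¹ := inv_pos.2 hy
  have him : 0 < (I * (y : ℂ)).im := by simpa using hy
  have him' : 0 < (I * ((y⁻¹ : ℝ) : ℂ)).im := by simpa using hy
  have h := congrFun ModularForm.discriminant_S_invariant (ofComplex (I * y))
  rw [ModularForm.SL_slash_apply, UpperHalfPlane.modular_S_smul] at h
  have h1 : (UpperHalfPlane.mk (-((ofComplex (I * y) : UpperHalfPlane) : ℂ))⁻¹
      (ofComplex (I * y)).im_inv_neg_coe_pos) = ofComplex (I * ((y⁻¹ : ℝ) : ℂ)) := by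
    rw [UpperHalfPlane.ofComplex_apply_of_im_pos him']
    ext
    rw [UpperHalfPlane.ofComplex_apply_of_im_pos him]
    push_cast
    rw [inv_neg, mul_inv_rev, Complex.inv_I]
    ring
  have h2 : UpperHalfPlane.denom (ModularGroup.S : GL (Fin 2) ℝ) (ofComplex (I * y) : UpperHalfPlane) =
      I * y := by
    rw [UpperHalfPlane.ofComplex_apply_of_im_pos him]
    simp [UpperHalfPlane.denom, ModularGroup.S]
  rw [h1] at h
  have h3 : UpperHalfPlane.denom
      (Matrix.SpecialLinearGroup.toGL ((Matrix.SpecialLinearGroup.map (Int.castRingHom ℝ)) ModularGroup.S))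
      ((ofComplex (I * y) : UpperHalfPlane) : ℂ) = I * y := h2
  rw [h3, ← Dl_eq hy, ← Dl_eq hy'] at h
  have hyc : (y : ℂ) ≠ 0 := by exact_mod_cast hy.ne'
  have h4 : (I * (y : ℂ)) ^ (-12 : ℤ) = (((y : ℝ) : ℂ) ^ 12)⁻¹ := by
    rw [zpow_neg, mul_zpow]
    have : (I : ℂ) ^ (12 : ℤ) = 1 := by
      rw [show (12 : ℤ) = ((12 : ℕ) : ℤ) by norm_num, zpow_natCast, show 12 = 4 * 3 by norm_num, pow_mul,
        I_pow_four, one_pow]
    rw [this, one_mul]
    norm_cast
  rw [h4] at h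
  have h5 : ((Dl y⁻¹ : ℝ) : ℂ) = ((y ^ 12 * Dl y : ℝ) : ℂ) := by
    push_cast
    rw [← h]
    field_simp
  exact_mod_cast h5

/-- the kernel -/
noncomputable def wk (s t : ℝ) : ℝ := 1 / s * Real.exp (6 * (t / s)) * Dl (Real.exp (t / s))

lemma Dl_cont : ContinuousOn Dl (Set.Ioi 0) := by
  have h : ∀ y ∈ Set.Ioi (0 : ℝ), Dl y = (ModularForm.eta (I * y) ^ 24).re := by
    intro y hy
    have hy0 : (0 : ℝ) < y := hy
    have him : 0 < (I * (y : ℂ)).im := by simpa using hy0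
    have h1 := Dl_eq hy0
    rw [ModularForm.discriminant, UpperHalfPlane.ofComplex_apply_of_im_pos him] at h1
    have h2 : ((Dl y : ℝ) : ℂ) = ModularForm.eta (I * y) ^ 24 := h1
    rw [← h2, Complex.ofReal_re]
  refine ContinuousOn.congr ?_ h
  refine Complex.continuous_re.comp_continuousOn (ContinuousOn.pow ?_ 24)
  intro y hy
  have hy0 : (0 : ℝ) < y := hy
  have him : 0 < (I * (y : ℂ)).im := by simpa using hy0
  have h1 : ContinuousAt ModularForm.eta (I * (y : ℂ)) :=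
    (ModularForm.differentiableAt_eta_of_mem_upperHalfPlaneSet him).continuousAt
  have h2 : ContinuousAt (fun y : ℝ => I * (y : ℂ)) y := by fun_prop
  exact (ContinuousAt.comp (f := fun y : ℝ => I * (y : ℂ)) (g := ModularForm.eta) h1 h2).continuousWithinAt

lemma wk_cont (s : ℝ) : Continuous (wk s) := by
  unfold wk
  refine (by fun_prop : Continuous fun t : ℝ => 1 / s * Real.exp (6 * (t / s))).mul ?_
  exact Dl_cont.comp_continuous (by fun_prop) fun t => Real.exp_pos _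

lemma wk_pos {s : ℝ} (hs : 0 < s) (t : ℝ) : 0 < wk s t := by
  unfold wk
  have := Dl_pos (Real.exp_pos (t / s))
  positivity

lemma wk_even {s : ℝ} (t : ℝ) : wk s (-t) = wk s t := by
  unfold wk
  have h1 : Real.exp (-t / s) = (Real.exp (t / s))⁻¹ := by
    rw [← Real.exp_neg]
    congr 1
    ring
  rw [h1, Dl_inv (Real.exp_pos _), ← Real.exp_nat_mul]
  have h2 : Real.exp (6 * (-t / s)) * Real.exp ((12 : ℕ) * (t / s)) = Real.exp (6 * (t / s)) := by
    rw [← Real.exp_add]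
    congr 1
    push_cast
    ring
  linear_combination (1 / s * Dl (Real.exp (t / s))) * h2

lemma wk_decay {s : ℝ} (hs : 0 < s) : ∃ A c : ℝ, 0 < A ∧ 0 < c ∧
    ∀ t, wk s t ≤ A * Real.exp (-(c * |t| ^ 9) - |t|) := by
  have hpi := Real.pi_gt_three
  refine ⟨1 / s * Real.exp ((6 + s) ^ 2), 1 / (362880 * s ^ 9), by positivity, by positivity,
    fun t => ?_⟩
  have e : wk s t = wk s |t| := by
    rcases abs_choice t with h | h
    · rw [h]
    · rw [h, wk_even]
  rw [e]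
  obtain ⟨x, hx⟩ : ∃ x : ℝ, x = |t| / s := ⟨_, rfl⟩
  have hx0 : 0 ≤ x := by rw [hx]; positivity
  have ht : |t| = s * x := by rw [hx]; field_simp
  unfold wk
  rw [← hx]
  have h1 := Dl_le (Real.exp_pos x)
  have h9 := Real.pow_div_factorial_le_exp x hx0 9
  have h2 := Real.quadratic_le_exp_of_nonneg hx0
  have hf : (Nat.factorial 9 : ℝ) = 362880 := by norm_num [Nat.factorial]
  rw [hf] at h9
  have hE : 6 * Real.exp x ≤ 2 * Real.pi * Real.exp x := by
    have := Real.exp_pos x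
    nlinarith
  calc 1 / s * Real.exp (6 * x) * Dl (Real.exp x)
      ≤ 1 / s * Real.exp (6 * x) * Real.exp (-2 * Real.pi * Real.exp x) := by gcongr
    _ = 1 / s * Real.exp (6 * x - 2 * Real.pi * Real.exp x) := by
        rw [mul_assoc, ← Real.exp_add]
        congr 2
        ring
    _ ≤ 1 / s * Real.exp ((6 + s) ^ 2 + (-(1 / (362880 * s ^ 9) * |t| ^ 9) - |t|)) := by
        apply mul_le_mul_of_nonneg_left _ (by positivity)
        apply Real.exp_le_exp.2
        have e9 : 1 / (362880 * s ^ 9) * |t| ^ 9 = x ^ 9 / 362880 := by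
          rw [ht, mul_pow]
          field_simp
        rw [e9, ht]
        nlinarith [sq_nonneg (x / 2 - (6 + s)), sq_nonneg x]
    _ = _ := by rw [Real.exp_add]; ring

lemma mellin_Dl {s : ℝ} (hs : 0 < s) (z : ℂ) :
    mellin (fun y : ℝ => ((Dl y : ℝ) : ℂ)) (6 + s * z) = ∫ t : ℝ, ((wk s t : ℝ) : ℂ) * cexp (z * t) := by
  rw [mellin_eq_fourier, Real.fourier_eq']
  set v : ℂ := 6 + s * z with hv
  have h1 : ∀ u : ℝ, cexp (((-2 * Real.pi * inner ℝ u (v.im / (2 * Real.pi)) : ℝ) : ℂ) * I) •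
      Real.exp (-v.re * u) • ((Dl (Real.exp (-u)) : ℝ) : ℂ) =
      cexp (-(v * u)) * ((Dl (Real.exp (-u)) : ℝ) : ℂ) := by
    intro u
    have hpi : (Real.pi : ℂ) ≠ 0 := by exact_mod_cast Real.pi_ne_zero
    rw [smul_eq_mul, Complex.real_smul, ← mul_assoc, Complex.ofReal_exp, ← Complex.exp_add]
    congr 2
    simp only [RCLike.inner_apply, conj_trivial]
    push_cast
    nth_rewrite 3 [← Complex.re_add_im v]
    field_simp
    ring
  simp_rw [h1]
  have h2 := Measure.integral_comp_mul_left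
    (fun u : ℝ => cexp (-(v * u)) * ((Dl (Real.exp (-u)) : ℝ) : ℂ)) (-(1 / s))
  have h3 : |(-(1 / s))⁻¹| = s := by
    rw [inv_neg, abs_neg, one_div, inv_inv, abs_of_pos hs]
  rw [h3] at h2
  have hsc : (s : ℂ) ≠ 0 := by exact_mod_cast hs.ne'
  have h4 : (∫ u : ℝ, cexp (-(v * u)) * ((Dl (Real.exp (-u)) : ℝ) : ℂ)) = (1 / s : ℂ) *
      ∫ x : ℝ, cexp (-(v * ((-(1 / s) * x : ℝ) : ℂ))) * ((Dl (Real.exp (-(-(1 / s) * x))) : ℝ) : ℂ) := by
    rw [h2, Complex.real_smul]
    field_simp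
  rw [h4, ← integral_const_mul]
  refine integral_congr_ae (Eventually.of_forall fun t => ?_)
  simp only
  unfold wk
  have e1 : -(-(1 / s) * t) = t / s := by ring
  rw [e1]
  push_cast
  have e2 : cexp (-(v * (-(1 / (s : ℂ)) * t))) = cexp (6 * (t / s)) * cexp (z * t) := by
    rw [← Complex.exp_add]
    congr 1
    rw [hv]
    field_simp
  rw [e2]
  ring

end Pool.Agent.H128R3.JD.DelK
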