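import Pool.Agent.H24R2.JP.Spec

set_option autoImplicit false

/-!
# Jensen polynomials for a general Dirichlet series with a gamma factor

Generalisation of helper24's blueprint `Pool.Agent.H24R2.JP.Spec` (Riemann xi) to data
`X z = H z * L z`, `L z = ∑ a_m m ^ (-s z)`, `logDeriv H (i t) = kap * log t + O(1)`.
-/

namespace Pool.Agent.H128R3.JD

open Complex Filter Topology Polynomial
open Pool.Agent.H24R2.JP (Par Hyperbolic arc Good)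

/-- The data: completed function, archimedean factor, Dirichlet series, coefficients, scale. -/
structure Dat where
  /-- the completed function, an even entire function -/
  X : ℂ → ℂ
  /-- the archimedean factor -/
  H : ℂ → ℂ
  /-- the Dirichlet series -/
  L : ℂ → ℂ
  /-- the coefficients -/
  a : ℕ → ℂ
  /-- the scale -/
  s : ℝ
  /-- the growth of the archimedean factor -/
  kap : ℝ

/-- `γ(k) = k! / (2k)! * X^(2k)(0)`, so that `X z = ∑ γ(k) z ^ (2k) / k!`. -/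
noncomputable def gam (D : Dat) (k : ℕ) : ℝ :=
  (k.factorial : ℝ) / ((2 * k).factorial : ℝ) * (iteratedDeriv (2 * k) D.X 0).re

/-- The Jensen polynomial of degree `d` and shift `n`. -/
noncomputable def jensen (D : Dat) (d n : ℕ) : ℝ[X] :=
  ∑ j ∈ Finset.range (d + 1), Polynomial.C ((d.choose j : ℝ) * gam D (n + j)) * Polynomial.X ^ j

/-- `F x = ∑ γ(k) x ^ k / k!`, so that `F (z ^ 2) = X z`. -/
noncomputable def FF (D : Dat) (x : ℂ) : ℂ := ∑' k : ℕ, ((gam D k : ℝ) : ℂ) / (k.factorial : ℂ) * x ^ k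

/-- Basic properties of the completed function. -/
def SBas (D : Dat) : Prop := Differentiable ℂ D.X ∧ (∀ z, D.X (-z) = D.X z) ∧
  ∀ z, D.X ((starRingEnd ℂ) z) = (starRingEnd ℂ) (D.X z)

def SB1 (D : Dat) : Prop := Differentiable ℂ (FF D) ∧ (∀ z, FF D (z ^ 2) = D.X z) ∧
  (∀ x, FF D ((starRingEnd ℂ) x) = (starRingEnd ℂ) (FF D x)) ∧
  ∀ n, iteratedDeriv n (FF D) 0 = ((gam D n : ℝ) : ℂ)

/-- `X` is the Laplace transform of a positive even kernel of very rapid decay. -/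
def SKer (D : Dat) : Prop := ∃ w : ℝ → ℝ, Continuous w ∧ (∀ t, 0 < w t) ∧ (∀ t, w (-t) = w t) ∧
  (∃ A c : ℝ, 0 < A ∧ 0 < c ∧ ∀ t, w t ≤ A * Real.exp (-(c * |t| ^ 9) - |t|)) ∧
  ∀ z : ℂ, D.X z = ∫ t : ℝ, ((w t : ℝ) : ℂ) * cexp (z * t)

/-- The moments of the kernel. -/
def SMom (D : Dat) : Prop := ∃ M : ℕ → ℝ, (∀ k, 0 < M k) ∧
  (∀ k, gam D k = (k.factorial : ℝ) / ((2 * k).factorial : ℝ) * M k) ∧
  (∀ k, M (k + 1) ^ 2 ≤ M k * M (k + 2)) ∧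
  ∃ K : ℝ, 0 < K ∧ ∀ k : ℕ, M (k + 1) ≤ K * ((k : ℝ) + 1) ^ (1 / 4 : ℝ) * M k

def SGam (D : Dat) : Prop := (∀ k, 0 < gam D k) ∧
  (∃ K : ℝ, 0 < K ∧ ∀ n : ℕ, 1 ≤ n →
    (gam D (n + 1) / gam D n) ^ 2 - gam D (n + 2) / gam D n ≤ K * (n : ℝ) ^ (-(5 / 2) : ℝ)) ∧
  Tendsto (fun n => gam D (n + 1) / gam D n) atTop (𝓝 0)

def SGrow (D : Dat) : Prop := ∃ K : ℝ, ∀ x, ‖FF D x‖ ≤ Real.exp (K * (1 + ‖x‖) ^ (3 / 4 : ℝ))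

def SZeros (D : Dat) : Prop := ∀ x, FF D x = 0 → x ∈ Par

/-- The zeros of `X` are in the strip. -/
def SStrip (D : Dat) : Prop := ∀ z, D.X z = 0 → |z.re| ≤ 1 / 2

def SGood (D : Dat) : Prop := Good (FF D)

def SLow (D : Dat) : Prop := ∀ C : ℝ, ∃ N0 : ℕ, ∀ n : ℕ, N0 ≤ n → ∀ w : ℂ,
  iteratedDeriv n (FF D) w = 0 → C * n < ‖w‖

/-! ## The window -/

noncomputable def be (D : Dat) (t : ℝ) : ℂ := logDeriv D.H (I * t)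

noncomputable def Om (D : Dat) (t : ℝ) : ℝ := D.kap * Real.log t

/-- The basic inequalities between the parameters. -/
def SPar0 (D : Dat) : Prop := 1 ≤ D.s ∧ 0 < D.kap ∧ D.a 1 = 1 ∧
  ∀ m : ℕ, 1 ≤ m → ‖D.a m‖ ≤ (m : ℝ) ^ (D.s / 4)

/-- The logarithmic derivative of the archimedean factor. -/
def SLogH (D : Dat) : Prop := (∀ z : ℂ, 0 < z.im → DifferentiableAt ℂ D.H z ∧ D.H z ≠ 0) ∧
  ∃ K T : ℝ, 1 ≤ K ∧ 400 ≤ T ∧ ∀ (t : ℝ) (z : ℂ), T ≤ t → ‖z - I * t‖ ≤ t / 4 →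
    ‖logDeriv D.H z - (Om D t : ℂ)‖ ≤ K

def SStir (D : Dat) : Prop := (∀ z : ℂ, 0 < z.im → DifferentiableAt ℂ D.H z) ∧
  ∃ K T0 : ℝ, 1 ≤ K ∧ 1 ≤ T0 ∧ ∀ t : ℝ, T0 ≤ t → D.H (I * t) ≠ 0 ∧ ‖be D t - (Om D t : ℂ)‖ ≤ K ∧
    ∀ u : ℂ, ‖u‖ ≤ 50 →
      ‖D.H (I * t + u) - D.H (I * t) * cexp (be D t * u)‖ ≤
        K / t * ‖D.H (I * t) * cexp (be D t * u)‖

def SZeta (D : Dat) : Prop := (∀ z : ℂ, 0 < z.im → D.X z = D.H z * D.L z) ∧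
  ∃ K P B : ℝ, 1 ≤ K ∧ 0 ≤ P ∧ 0 ≤ B ∧ P / D.kap + 2 / 5 * (B / D.s) ≤ 11 / 5 ∧
    ∀ (z : ℂ) (M : ℕ), 0 ≤ z.re → 1 ≤ z.im → 1 ≤ M →
      ‖D.L z - ∑ m ∈ Finset.Icc 1 M, D.a m * (m : ℂ) ^ (-(D.s * z))‖ ≤
        K * (1 + ‖z‖) ^ P * (M : ℝ) ^ (B - D.s * z.re)

/-- The branch of `√ξ` in the upper half plane. -/
noncomputable def sq (ξ : ℂ) : ℂ := I * (-ξ) ^ (1 / 2 : ℂ)

/-- The `m`-th piece. -/
noncomputable def GG (D : Dat) (m : ℕ) (ξ : ℂ) : ℂ := D.H (sq ξ) * (D.a m * (m : ℂ) ^ (-(D.s * sq ξ)))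

/-- The main term. -/
noncomputable def mt (D : Dat) (n : ℕ) (t : ℝ) (z : ℂ) : ℂ :=
  D.H (I * t) * cexp (be D t * (z - I * t)) * (be D t / (2 * (I * t))) ^ n

/-- The window: `n ∈ [19.5 Ω, 20.5 Ω]`, and `z` is near `i t`. -/
def Win (D : Dat) (t : ℝ) (n : ℕ) (z : ℂ) : Prop :=
  39 / 2 * Om D t ≤ n ∧ (n : ℝ) ≤ 41 / 2 * Om D t ∧ ‖z - I * t‖ ≤ 3 / 4

/-- The bound for the number of terms. -/
noncomputable def ML (D : Dat) (t : ℝ) : ℝ := Real.exp (2 / 5 * Om D t / D.s)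

def SPiece (D : Dat) : Prop := ∃ K T0 : ℝ, 1 ≤ K ∧ 1 ≤ T0 ∧ ∀ (t : ℝ) (n m : ℕ) (z : ℂ), T0 ≤ t →
  Win D t n z → 1 ≤ m → (m : ℝ) ≤ ML D t →
  ‖iteratedDeriv n (GG D m) (z ^ 2) -
      D.H (I * t) * cexp (be D t * (z - I * t)) * (D.a m * (m : ℂ) ^ (-(D.s * z))) *
        ((be D t - ((D.s * Real.log m : ℝ) : ℂ)) / (2 * (I * t))) ^ n‖ ≤
    K * (n : ℝ) ^ 2 / t * ‖D.H (I * t) * cexp (be D t * (z - I * t)) *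
        (D.a m * (m : ℂ) ^ (-(D.s * z))) *
        ((be D t - ((D.s * Real.log m : ℝ) : ℂ)) / (2 * (I * t))) ^ n‖

/-- The upper arc: `FF` is the sum of its first pieces up to a small error. -/
def SUp (D : Dat) : Prop := ∀ ε : ℝ, 0 < ε → ∃ T0 : ℝ, 1 ≤ T0 ∧ ∀ (t : ℝ) (n : ℕ) (z : ℂ), T0 ≤ t →
  Win D t n z →
  ‖arc (FF D) n (-t ^ 2) (40 * t) 0 Real.pi (z ^ 2) - ∑ m ∈ Finset.Icc 1 ⌊ML D t⌋₊,
    arc (GG D m) n (-t ^ 2) (40 * t) 0 Real.pi (z ^ 2)‖ ≤ ε * ‖mt D n t z‖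

/-- The lower arc of the pieces is negligible. -/
def SDown (D : Dat) : Prop := ∀ ε : ℝ, 0 < ε → ∃ T0 : ℝ, 1 ≤ T0 ∧ ∀ (t : ℝ) (n : ℕ) (z : ℂ), T0 ≤ t →
  Win D t n z →
  ∑ m ∈ Finset.Icc 1 ⌊ML D t⌋₊,
    ‖arc (GG D m) n (-t ^ 2) (40 * t) Real.pi (2 * Real.pi) (z ^ 2)‖ ≤ ε * ‖mt D n t z‖

def SMain (D : Dat) : Prop := ∃ T0 : ℝ, 1 ≤ T0 ∧ ∀ (t : ℝ) (n : ℕ) (z : ℂ), T0 ≤ t → Win D t n z →
  ‖arc (FF D) n (-t ^ 2) (40 * t) 0 Real.pi (z ^ 2) - mt D n t z‖ ≤ 1 / 10 * ‖mt D n t z‖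

/-- No zeros off the line at height `t` (in terms of `z`). -/
def SOff (D : Dat) : Prop := ∃ T0 : ℝ, 1 ≤ T0 ∧ ∀ (t s : ℝ) (n : ℕ), T0 ≤ t → 39 / 2 * Om D t ≤ n →
  (n : ℝ) ≤ 41 / 2 * Om D t → 0 < s → s ≤ 1 / 2 → iteratedDeriv n (FF D) ((s + I * t) ^ 2) ≠ 0

def SWin (D : Dat) : Prop := ∃ n1 : ℕ, ∀ n : ℕ, n1 ≤ n → ∀ x : ℂ, x ∈ Par → x.im ≠ 0 →
  Real.exp (49 / 500 / D.kap * n) ≤ ‖x‖ → ‖x‖ ≤ Real.exp (51 / 500 / D.kap * n) →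
    iteratedDeriv n (FF D) x ≠ 0

/-! ## Conclusion -/

def SChain (D : Dat) : Prop := ∃ N1 : ℕ, ∀ n : ℕ, N1 ≤ n → ∀ w : ℂ, w.im ≠ 0 →
  iteratedDeriv n (FF D) w = 0 → Real.exp (1 / 10 / D.kap * n) < ‖w‖

def SHyp (D : Dat) : Prop := ∃ C : ℝ, 0 < C ∧ ∀ d n : ℕ, C * Real.log (d + 1) ≤ n →
  Hyperbolic (jensen D d n)

/-! ## Equivalence -/

def SRH1 (D : Dat) : Prop := (∀ z, D.X z = 0 → z.re = 0) → ∀ d n : ℕ, Hyperbolic (jensen D d n)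

def SRH2 (D : Dat) : Prop := (∀ d : ℕ, Hyperbolic (jensen D d 0)) → ∀ z, D.X z = 0 → z.re = 0

end Pool.Agent.H128R3.JD
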